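import Pool.Agent.Helper89.TQ.Spec

/-!
# TQ, part BRIDGE: from the game to the two rows
-/

set_option autoImplicit false
set_option linter.unusedSectionVars false

namespace Pool.Agent.Helper53.TQ.BRIDGE

open Finset Pool.Agent.R6.Trade Pool.Agent.Helper89.TQ

variable {N : Type} [Fintype N] [DecidableEq N]

lemma vec_insert (τ : N → Fin 3) {S : Finset N} {v : N} (hv : v ∉ S) (k : Fin 3) :
    vec τ (insert v S) k = vec τ S k + if τ v = k then 1 else 0 := by
  unfold vec
  rw [filter_insert]
  by_cases h : τ v = k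
  · rw [if_pos h, if_pos h, card_insert_of_notMem]
    simp [hv]
  · rw [if_neg h, if_neg h, add_zero]

lemma vec_erase (τ : N → Fin 3) {S : Finset N} {u : N} (hu : u ∈ S) (k : Fin 3) :
    vec τ (S.erase u) k + (if τ u = k then 1 else 0) = vec τ S k := by
  rw [← vec_insert τ (notMem_erase u S) k, insert_erase hu]

lemma exists_out (τ : N → Fin 3) {S : Finset N} {i : Fin 3} (h : vec τ S i < nn τ i) :
    ∃ v, v ∉ S ∧ τ v = i := by
  by_contra hcon
  push Not at hcon
  have h1 : (univ.filter (fun v => τ v = i)) ⊆ S.filter (fun v => τ v = i) := by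
    intro v hv
    have hv' := (mem_filter.1 hv).2
    refine mem_filter.2 ⟨?_, hv'⟩
    by_contra h2
    exact hcon v h2 hv'
  have h2 := card_le_card h1
  unfold vec nn at h
  omega

lemma exists_in (τ : N → Fin 3) {S : Finset N} {i : Fin 3} (h : 0 < vec τ S i) :
    ∃ v, v ∈ S ∧ τ v = i := by
  unfold vec at h
  obtain ⟨v, hv⟩ := card_pos.1 h
  exact ⟨v, (mem_filter.1 hv).1, (mem_filter.1 hv).2⟩

section

variable {W : Finset N → Prop} {τ : N → Fin 3} (hS : IsSimple W)
  (hτ : ∀ u v, AtLeast W u v ↔ τ u ≤ τ v)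

include hS in
lemma opA {S : Finset N} (h : W S) {i : Fin 3} (hi : vec τ S i < nn τ i) :
    ∃ S', W S' ∧ ∀ k, vec τ S' k = vec τ S k + if i = k then 1 else 0 := by
  obtain ⟨v, hv, rfl⟩ := exists_out τ hi
  exact ⟨insert v S, hS.2.2 _ _ (subset_insert v S) h, fun k => vec_insert τ hv k⟩

include hτ in
lemma opB {S : Finset N} (h : W S) {i j : Fin 3} (hij : i < j) (hi : vec τ S i < nn τ i)
    (hj : 0 < vec τ S j) :
    ∃ S', W S' ∧ ∀ k, vec τ S' k + (if j = k then 1 else 0) =
      vec τ S k + if i = k then 1 else 0 := by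
  obtain ⟨v, hv, rfl⟩ := exists_out τ hi
  obtain ⟨u, hu, rfl⟩ := exists_in τ hj
  have hvu : v ∉ S.erase u := fun h' => hv (mem_of_mem_erase h')
  refine ⟨insert v (S.erase u), (hτ v u).2 hij.le (S.erase u) hvu (notMem_erase u S) ?_, ?_⟩
  · rwa [insert_erase hu]
  · intro k
    rw [vec_insert τ hvu k, ← vec_erase τ hu k]
    omega

include hS hτ in
lemma shift (m : ℕ) : ∀ S T : Finset N, W S → GE (vec τ T) (vec τ S) →
    3 * vec τ T 0 + 2 * vec τ T 1 + vec τ T 2 ≤
      3 * vec τ S 0 + 2 * vec τ S 1 + vec τ S 2 + m → W T := by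
  have hinv : ∀ S T : Finset N, vec τ S = vec τ T → W S → W T := fun S T h hW =>
    win_of_vec_eq hS.2.2 τ (fun a b hab => (hτ a b).2 hab.le) _ S T rfl h hW
  have heq : ∀ x y : Fin 3 → ℕ, x 0 = y 0 → x 1 = y 1 → x 2 = y 2 → x = y := by
    intro x y h0 h1 h2
    funext k
    fin_cases k
    · exact h0
    · exact h1
    · exact h2
  induction m with
  | zero =>
    intro S T hW hge hP
    obtain ⟨h0, h1, h2⟩ := hge
    exact hinv S T (heq _ _ (by omega) (by omega) (by omega)) hW
  | succ m ih =>
    intro S T hW hge hP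
    obtain ⟨h0, h1, h2⟩ := hge
    have hT0 := vec_le τ T 0
    have hT1 := vec_le τ T 1
    have hT2 := vec_le τ T 2
    have e01 : ¬ ((0 : Fin 3) = 1) := by decide
    have e02 : ¬ ((0 : Fin 3) = 2) := by decide
    have e10 : ¬ ((1 : Fin 3) = 0) := by decide
    have e12 : ¬ ((1 : Fin 3) = 2) := by decide
    have e20 : ¬ ((2 : Fin 3) = 0) := by decide
    have e21 : ¬ ((2 : Fin 3) = 1) := by decide
    by_cases c0 : vec τ S 0 < vec τ T 0
    · by_cases c1 : vec τ S 0 + vec τ S 1 < vec τ T 0 + vec τ T 1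
      · by_cases c2 : vec τ S 0 + vec τ S 1 + vec τ S 2 < vec τ T 0 + vec τ T 1 + vec τ T 2
        · obtain ⟨S', hW', hv⟩ := opA (τ := τ) hS hW (i := 0) (by omega)
          have v0 := hv 0
          have v1 := hv 1
          have v2 := hv 2
          simp only [e01, e02, if_true, if_false, add_zero] at v0 v1 v2
          exact ih S' T hW' ⟨by omega, by omega, by omega⟩ (by omega)
        · obtain ⟨S', hW', hv⟩ := opB hτ hW (i := 0) (j := 2) (by decide) (by omega) (by omega)
          have v0 := hv 0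
          have v1 := hv 1
          have v2 := hv 2
          simp only [e01, e02, e20, e21, if_true, if_false, add_zero] at v0 v1 v2
          exact ih S' T hW' ⟨by omega, by omega, by omega⟩ (by omega)
      · obtain ⟨S', hW', hv⟩ := opB hτ hW (i := 0) (j := 1) (by decide) (by omega) (by omega)
        have v0 := hv 0
        have v1 := hv 1
        have v2 := hv 2
        simp only [e01, e02, e10, e12, if_true, if_false, add_zero] at v0 v1 v2
        exact ih S' T hW' ⟨by omega, by omega, by omega⟩ (by omega)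
    · by_cases c1 : vec τ S 0 + vec τ S 1 < vec τ T 0 + vec τ T 1
      · by_cases c2 : vec τ S 0 + vec τ S 1 + vec τ S 2 < vec τ T 0 + vec τ T 1 + vec τ T 2
        · obtain ⟨S', hW', hv⟩ := opA (τ := τ) hS hW (i := 1) (by omega)
          have v0 := hv 0
          have v1 := hv 1
          have v2 := hv 2
          simp only [e10, e12, if_true, if_false, add_zero] at v0 v1 v2
          exact ih S' T hW' ⟨by omega, by omega, by omega⟩ (by omega)
        · obtain ⟨S', hW', hv⟩ := opB hτ hW (i := 1) (j := 2) (by decide) (by omega) (by omega)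
          have v0 := hv 0
          have v1 := hv 1
          have v2 := hv 2
          simp only [e10, e12, e20, e21, if_true, if_false, add_zero] at v0 v1 v2
          exact ih S' T hW' ⟨by omega, by omega, by omega⟩ (by omega)
      · by_cases c2 : vec τ S 0 + vec τ S 1 + vec τ S 2 < vec τ T 0 + vec τ T 1 + vec τ T 2
        · obtain ⟨S', hW', hv⟩ := opA (τ := τ) hS hW (i := 2) (by omega)
          have v0 := hv 0
          have v1 := hv 1
          have v2 := hv 2
          simp only [e20, e21, if_true, if_false, add_zero] at v0 v1 v2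
          exact ih S' T hW' ⟨by omega, by omega, by omega⟩ (by omega)
        · exact hinv S T (heq _ _ (by omega) (by omega) (by omega)) hW

/-- every winning vector is above a minimal one -/
lemma exists_min (m : ℕ) : ∀ S : Finset N, W S → 3 * vec τ S 0 + 2 * vec τ S 1 + vec τ S 2 ≤ m →
    ∃ v, MinWin W τ v ∧ GE (vec τ S) v := by
  have heq : ∀ x y : Fin 3 → ℕ, x 0 = y 0 → x 1 = y 1 → x 2 = y 2 → x = y := by
    intro x y h0 h1 h2
    funext k
    fin_cases k
    · exact h0
    · exact h1
    · exact h2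
  induction m with
  | zero =>
    intro S hW hP
    refine ⟨vec τ S, ⟨⟨S, hW, rfl⟩, ?_⟩, ⟨le_rfl, le_rfl, le_rfl⟩⟩
    rintro S' - ⟨h0, h1, h2⟩
    exact heq _ _ (by omega) (by omega) (by omega)
  | succ m ih =>
    intro S hW hP
    by_cases hmin : MinWin W τ (vec τ S)
    · exact ⟨vec τ S, hmin, ⟨le_rfl, le_rfl, le_rfl⟩⟩
    · have h1 : ∃ S', W S' ∧ GE (vec τ S) (vec τ S') ∧ vec τ S' ≠ vec τ S := by
        by_contra hcon
        push Not at hcon
        exact hmin ⟨⟨S, hW, rfl⟩, fun S' h h' => hcon S' h h'⟩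
      obtain ⟨S', hW', ⟨g0, g1, g2⟩, hne⟩ := h1
      have hlt : 3 * vec τ S' 0 + 2 * vec τ S' 1 + vec τ S' 2 ≤ m := by
        by_contra hcon
        exact hne (heq _ _ (by omega) (by omega) (by omega))
      obtain ⟨v, hv, k0, k1, k2⟩ := ih S' hW' hlt
      exact ⟨v, hv, by omega, by omega, by omega⟩

end

theorem main : S_BRIDGE := by
  intro N _ _ W τ a b hS hsurj hτ hab hmin
  have ha : MinWin W τ a := (hmin a).2 (Or.inl rfl)
  have hb : MinWin W τ b := (hmin b).2 (Or.inr rfl)
  obtain ⟨⟨Sa, hSa, hva⟩, hma⟩ := ha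
  obtain ⟨⟨Sb, hSb, hvb⟩, hmb⟩ := hb
  have hwin : ∀ S, W S ↔ Win a b (vec τ S) := by
    intro S
    constructor
    · intro hW
      obtain ⟨v, hv, hge⟩ := exists_min _ S hW le_rfl
      rcases (hmin v).1 hv with rfl | rfl
      · exact Or.inl hge
      · exact Or.inr hge
    · rintro (h | h)
      · rw [← hva] at h
        exact shift hS hτ (3 * vec τ S 0 + 2 * vec τ S 1 + vec τ S 2) Sa S hSa h (by omega)
      · rw [← hvb] at h
        exact shift hS hτ (3 * vec τ S 0 + 2 * vec τ S 1 + vec τ S 2) Sb S hSb h (by omega)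
  have e01 : ¬ ((0 : Fin 3) = 1) := by decide
  have e02 : ¬ ((0 : Fin 3) = 2) := by decide
  have e10 : ¬ ((1 : Fin 3) = 0) := by decide
  have e12 : ¬ ((1 : Fin 3) = 2) := by decide
  have e20 : ¬ ((2 : Fin 3) = 0) := by decide
  have e21 : ¬ ((2 : Fin 3) = 1) := by decide
  refine ⟨?_, ?_, ?_, ?_, ?_, ?_, hwin⟩
  · intro i
    rw [← hva]
    exact vec_le τ Sa i
  · intro i
    rw [← hvb]
    exact vec_le τ Sb i
  · intro h
    apply hab
    rw [← hma Sb hSb (by rw [hvb]; exact h), hvb]
  · intro h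
    apply hab
    rw [← hmb Sa hSa (by rw [hva]; exact h), hva]
  · obtain ⟨u, hu⟩ := hsurj 0
    obtain ⟨v, hv⟩ := hsurj 1
    have h1 : ¬ AtLeast W v u := by
      rw [hτ, hu, hv]
      decide
    unfold AtLeast at h1
    push Not at h1
    obtain ⟨S, hvS, huS, hWu, hWv⟩ := h1
    rw [hwin] at hWu hWv
    have u0 := vec_insert τ huS 0
    have u1 := vec_insert τ huS 1
    have u2 := vec_insert τ huS 2
    have v0 := vec_insert τ hvS 0
    have v1 := vec_insert τ hvS 1
    have v2 := vec_insert τ hvS 2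
    have hle := vec_le τ (insert v S) 1
    simp only [hu, hv, e01, e02, e10, e12, if_true, if_false, add_zero] at u0 u1 u2 v0 v1 v2
    unfold Win GE at hWu hWv
    push Not at hWv
    rcases hWu with ⟨w0, w1, w2⟩ | ⟨w0, w1, w2⟩
    · left
      have := hWv.1
      constructor <;> omega
    · right
      have := hWv.2
      constructor <;> omega
  · obtain ⟨u, hu⟩ := hsurj 1
    obtain ⟨v, hv⟩ := hsurj 2
    have h1 : ¬ AtLeast W v u := by
      rw [hτ, hu, hv]
      decide
    unfold AtLeast at h1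
    push Not at h1
    obtain ⟨S, hvS, huS, hWu, hWv⟩ := h1
    rw [hwin] at hWu hWv
    have u0 := vec_insert τ huS 0
    have u1 := vec_insert τ huS 1
    have u2 := vec_insert τ huS 2
    have v0 := vec_insert τ hvS 0
    have v1 := vec_insert τ hvS 1
    have v2 := vec_insert τ hvS 2
    have hle := vec_le τ (insert v S) 2
    simp only [hu, hv, e20, e21, e10, e12, if_true, if_false, add_zero] at u0 u1 u2 v0 v1 v2
    unfold Win GE at hWu hWv
    push Not at hWv
    rcases hWu with ⟨w0, w1, w2⟩ | ⟨w0, w1, w2⟩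
    · left
      have := hWv.1
      constructor <;> omega
    · right
      have := hWv.2
      constructor <;> omega

end Pool.Agent.Helper53.TQ.BRIDGE
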